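import Pool.Agent.N733.TG.K
import Pool.Agent.Results.MP_2a5a28_nt.WindowsWithoutExceptions

/-!
# The abc conjecture over the integers of `ℚ(√5)` for heights near functions of the values of multiplicative functions

Let `f` be a positive multiplicative function of at most polynomial growth such that `f p ≤ M p` for the large primes `p`,
with different values at different large primes; for example Euler's function or the sum of the divisors. Let `α > 0`,
`1 ≤ d < 37 / 20` and `κ < 1 - 20 d / 37`. For every constant `c`, for all `m ≤ N` but `N / (log N)^U`, ALL coprime triples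
`a + b + c = 0`, `abc ≠ 0`, of integers of `ℚ(√5)` whose height `H` satisfies `|H - α f(m)^d| ≤ f(m)^κ` have a radical larger
than `c H`. More generally `G (f m)` takes the place of `α f(m)^d`, where `G` is any function with steps bounded below by a
positive constant and growth at most `v^d`. The values of `f` are in general taken with very large multiplicities, and so this
does not follow from the number of the exceptional triples.

Proof. Write `m = k w` where `k` is composed of the primes `≤ z = N^(1 / J)`, `J` about `log log N`. For most `m` one has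
`k ≤ N^η`, and `w` is a product of at most `J` different primes. So `f(w)` is taken at most `(1 + τ)^J` times, `τ` its number of
divisors, which is at most `N^o(1)` on average, even in mean square: and the exceptional set has only `N^(1 - δ)` elements. The
number of the exceptional heights is bounded by the starting theorem `ExceptionalSet` of this problem.
-/

set_option autoImplicit false

namespace Pool.Agent.Results.MP_2a5a28_nt.MultiplicativeValues

open NumberField IsDedekindDomain Finset
open ExceptionalSet (Triple height rad)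
open Pool.Agent.N733.TG (LM Expanding lm_totient lm_sigma keep_windows expanding_pow)

/-- **abc over `ℚ(√5)` near the values of multiplicative functions.** Let `K = ℚ(√5)`. Let `f` be multiplicative and
positive, of at most polynomial growth, with `f p ≤ M p` at the large primes, and injective there. Let `G` have steps
`≥ a > 0` and growth at most `v^d`. Let `κ ≥ 0` and `20 d / 37 + κ < 1`. For every `c`, every `U` and all large `N`, for all
`m ≤ N` but `N / (log N)^U`, ALL triples `a + b + c = 0` in lowest terms with `abc ≠ 0` whose height `H` satisfies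
`|H - G (f m)| ≤ f(m)^κ` have a radical larger than `c H`. Euler's function and the sum of the divisors are examples of such
functions `f`, and `α v^d` with `α > 0`, `d ≥ 1` is an example of `G`. -/
theorem result :
    (∀ (K : Type) [Field K] [NumberField K], Module.finrank ℚ K = 2 → (∃ s : K, s ^ 2 = 5) →
      ∀ f : ℕ → ℕ, LM f → ∀ (G : ℕ → ℝ) (d : ℝ), Expanding G d → ∀ κ : ℝ, 0 ≤ κ → d * (20 / 37) + κ < 1 →
      ∀ (c : ℝ) (U : ℕ), ∃ N₀ : ℕ, ∀ N : ℕ, N₀ ≤ N →
      ({m : ℕ | 1 ≤ m ∧ m ≤ N ∧ ¬ ∀ t : 𝓞 K × 𝓞 K × 𝓞 K, Triple t →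
        |height t - G (f m)| ≤ (f m : ℝ) ^ κ → c * height t < rad t}.ncard : ℝ) ≤ N / Real.log N ^ U) ∧
    (LM Nat.totient ∧ LM (fun m => ∑ d ∈ m.divisors, d)) ∧
    ∀ α d : ℝ, 0 < α → 1 ≤ d → Expanding (fun v => α * (v : ℝ) ^ d) d := by
  refine ⟨fun K _ _ hd h5 f hf G d hG κ hκ h1 c U => ?_, ⟨lm_totient, lm_sigma⟩,
    fun α d hα hd => expanding_pow hα hd⟩
  obtain ⟨N₀, hN₀⟩ := keep_windows (WindowsWithoutExceptions.Exc K c) (fun x => x) hf hG (s := 20 / 37) (κ := κ)
    (by norm_num) hκ h1 (fun ε hε => WindowsWithoutExceptions.count hd h5 c ε hε) U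
  refine ⟨N₀, fun N hN => le_trans ?_ (hN₀ N hN)⟩
  have hfin : {m : ℕ | 1 ≤ m ∧ m ≤ N ∧ ∃ x ∈ WindowsWithoutExceptions.Exc K c,
      |x - G (f m)| ≤ (f m : ℝ) ^ κ}.Finite := by
    apply (Set.finite_Icc 1 N).subset
    intro m hm
    exact ⟨hm.1, hm.2.1⟩
  have h2 : {m : ℕ | 1 ≤ m ∧ m ≤ N ∧ ¬ ∀ t : 𝓞 K × 𝓞 K × 𝓞 K, Triple t →
        |height t - G (f m)| ≤ (f m : ℝ) ^ κ → c * height t < rad t} ⊆
      {m : ℕ | 1 ≤ m ∧ m ≤ N ∧ ∃ x ∈ WindowsWithoutExceptions.Exc K c,
        |x - G (f m)| ≤ (f m : ℝ) ^ κ} := by
    rintro m ⟨h2, h3, h4⟩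
    push Not at h4
    obtain ⟨t, ht, h5, h6⟩ := h4
    exact ⟨h2, h3, height t, ⟨t, ht, rfl, h6⟩, h5⟩
  exact_mod_cast Set.ncard_le_ncard h2 hfin

end Pool.Agent.Results.MP_2a5a28_nt.MultiplicativeValues
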